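import Pool.Agent.H960.IS.Stm

set_option autoImplicit false

namespace Pool.Agent.H296.IS

open H960FV H960IS

theorem gl_congr {d : ℕ} (Λ : Finset (Z d)) (τ : ↥Λ → Bool) {σ σ' : Z d → Bool}
    (h : ∀ x ∉ Λ, σ x = σ' x) : gl Λ τ σ = gl Λ τ σ' := by
  funext x
  unfold gl
  by_cases hx : x ∈ Λ
  · rw [dif_pos hx, dif_pos hx]
  · rw [dif_neg hx, dif_neg hx]
    exact h x hx

theorem out : S_out := by
  intro d β Λ g h
  refine ⟨fun σ σ' hs => ?_, fun hh η => ?_⟩
  · have h1 : ∀ τ : ↥Λ → Bool, gl Λ τ σ = gl Λ τ σ' := fun τ => gl_congr Λ τ hs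
    unfold Kop Zn
    simp only [h1]
  · have h1 : ∀ τ : ↥Λ → Bool, h (gl Λ τ η) = h η := fun τ => hh _ _ (fun x hx => by
      unfold gl
      rw [dif_neg hx])
    unfold Kop
    simp only [h1]
    rw [← mul_div_assoc, Finset.mul_sum]
    congr 1
    exact Finset.sum_congr rfl fun τ _ => by ring

end Pool.Agent.H296.IS
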